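import Pool.Agent.Lib.MP_eee7a8_ag.TB.Iface4

/-!
# TAGBR, module SLEQ (helper38): equal systems have equal functions
-/

open Matrix

namespace Pool.Agent.Lib.MP_eee7a8_ag.TB.C38

variable {G : Subgroup SLZ} {K : Type} [Field K] [Algebra ℂ K]

theorem sim_none {a b : Cusp} (h : Sim G none a b) : a = b := by
  unfold Sim at h
  induction h with
  | rel x y hxy =>
    obtain ⟨p, hp, _⟩ := hxy
    exact absurd hp (by simp)
  | refl x => rfl
  | symm x y _ ih => exact ih.symm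
  | trans x y z _ _ ih1 ih2 => exact ih1.trans ih2

theorem sim_refl (e : Option (Cusp × Cusp)) (a : Cusp) : Sim G e a a := Relation.EqvGen.refl a

theorem sim_symm {e : Option (Cusp × Cusp)} {a b : Cusp} (h : Sim G e a b) : Sim G e b a :=
  Relation.EqvGen.symm _ _ h

theorem sim_trans {e : Option (Cusp × Cusp)} {a b c : Cusp} (h : Sim G e a b)
    (h' : Sim G e b c) : Sim G e a c := Relation.EqvGen.trans _ _ _ h h'

theorem sim_smul {e : Option (Cusp × Cusp)} {g : SLZ} (hg : g ∈ G) {a b : Cusp}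
    (h : Sim G e a b) : Sim G e (g • a) (g • b) := by
  unfold Sim at h ⊢
  induction h with
  | rel x y hxy =>
    obtain ⟨p, hp, k, hk, hh⟩ := hxy
    refine Relation.EqvGen.rel _ _ ⟨p, hp, g * k, G.mul_mem hg hk, ?_⟩
    rcases hh with ⟨h1, h2⟩ | ⟨h1, h2⟩
    · left; rw [mul_smul, mul_smul, h1, h2]; exact ⟨rfl, rfl⟩
    · right; rw [mul_smul, mul_smul, h1, h2]; exact ⟨rfl, rfl⟩
  | refl x => exact Relation.EqvGen.refl _
  | symm x y _ ih => exact Relation.EqvGen.symm _ _ ih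
  | trans x y z _ _ ih1 ih2 => exact Relation.EqvGen.trans _ _ _ ih1 ih2

theorem slideArc_refl (e : Option (Cusp × Cusp)) (p : Cusp × Cusp) : SlideArc G e p p :=
  ⟨1, G.one_mem, Or.inl ⟨by rw [one_smul]; exact sim_refl e _, by rw [one_smul]; exact sim_refl e _⟩⟩

theorem slideArc_symm {e : Option (Cusp × Cusp)} {p q : Cusp × Cusp} (h : SlideArc G e p q) :
    SlideArc G e q p := by
  obtain ⟨g, hg, h⟩ := h
  refine ⟨g⁻¹, G.inv_mem hg, ?_⟩
  rcases h with ⟨h1, h2⟩ | ⟨h1, h2⟩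
  · left
    have e1 := sim_smul (G.inv_mem hg) h1
    have e2 := sim_smul (G.inv_mem hg) h2
    rw [inv_smul_smul] at e1 e2
    exact ⟨sim_symm e1, sim_symm e2⟩
  · right
    have e1 := sim_smul (G.inv_mem hg) h1
    have e2 := sim_smul (G.inv_mem hg) h2
    rw [inv_smul_smul] at e1 e2
    exact ⟨sim_symm e2, sim_symm e1⟩

theorem slideArc_trans {e : Option (Cusp × Cusp)} {p q r : Cusp × Cusp} (h : SlideArc G e p q)
    (h' : SlideArc G e q r) : SlideArc G e p r := by
  obtain ⟨g, hg, h⟩ := h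
  obtain ⟨k, hk, h'⟩ := h'
  refine ⟨k * g, G.mul_mem hk hg, ?_⟩
  simp only [mul_smul]
  rcases h with ⟨h1, h2⟩ | ⟨h1, h2⟩ <;> rcases h' with ⟨h3, h4⟩ | ⟨h3, h4⟩
  · left; exact ⟨sim_trans (sim_smul hk h1) h3, sim_trans (sim_smul hk h2) h4⟩
  · right; exact ⟨sim_trans (sim_smul hk h1) h3, sim_trans (sim_smul hk h2) h4⟩
  · right; exact ⟨sim_trans (sim_smul hk h1) h4, sim_trans (sim_smul hk h2) h3⟩
  · left; exact ⟨sim_trans (sim_smul hk h1) h4, sim_trans (sim_smul hk h2) h3⟩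

theorem slideArc_none {L : Lam G K} {p q : Cusp × Cusp} (h : SlideArc G none p q) :
    L.lam p.1 p.2 = L.lam q.1 q.2 := by
  obtain ⟨g, hg, h⟩ := h
  rcases h with ⟨h1, h2⟩ | ⟨h1, h2⟩
  · rw [← sim_none h1, ← sim_none h2, L.inv g hg]
  · rw [← sim_none h1, ← sim_none h2, L.inv g hg, L.symm]

theorem sameLoop_refl (l : SLZ × ℕ) : SameLoop G l l :=
  ⟨rfl, 1, G.one_mem, Or.inl (by simp)⟩

theorem sameLoop_symm {l m : SLZ × ℕ} (h : SameLoop G l m) : SameLoop G m l := by
  obtain ⟨h0, g, hg, h⟩ := h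
  refine ⟨h0.symm, g⁻¹, G.inv_mem hg, ?_⟩
  have conj : ∀ x : SLZ, g⁻¹ * (g * x * g⁻¹) * g⁻¹⁻¹ = x := fun x => by group
  rcases h with h | h | h | h
  · left; rw [← h, conj]
  · right; left
    have : m.1 = -(g * l.1 * g⁻¹) := by rw [h, neg_neg]
    rw [this, mul_neg, neg_mul, conj]
  · right; right; left
    have : m.1 = g * l.1⁻¹ * g⁻¹ := by
      rw [← inv_inv m.1, ← h]; group
    rw [this, conj]
  · right; right; right
    have : m.1 = -(g * l.1⁻¹ * g⁻¹) := by
      have h2 : m.1⁻¹ = -(g * l.1 * g⁻¹) := by rw [h, neg_neg]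
      rw [← inv_inv m.1, h2, inv_neg]
      congr 1
      group
    rw [this, mul_neg, neg_mul, conj]

theorem sameLoop_trans {l m n : SLZ × ℕ} (h : SameLoop G l m) (h' : SameLoop G m n) :
    SameLoop G l n := by
  obtain ⟨h0, g, hg, h⟩ := h
  obtain ⟨h0', k, hk, h'⟩ := h'
  refine ⟨h0.trans h0', k * g, G.mul_mem hk hg, ?_⟩
  have conj : k * g * l.1 * (k * g)⁻¹ = k * (g * l.1 * g⁻¹) * k⁻¹ := by group
  rw [conj]
  have cinv : ∀ x : SLZ, k * x⁻¹ * k⁻¹ = (k * x * k⁻¹)⁻¹ := fun x => by group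
  rcases h with h | h | h | h <;> rw [h] <;>
    rcases h' with h' | h' | h' | h' <;>
    simp only [mul_neg, neg_mul, cinv, h', inv_neg, neg_neg, inv_inv, true_or, or_true]

/-- A relation on multisets which implies equality of functions. -/
theorem rel_map_eq {α β γ : Type*} {r : α → β → Prop} {s : Multiset α} {t : Multiset β}
    (f : α → γ) (g : β → γ) (h : Multiset.Rel r s t)
    (hr : ∀ a ∈ s, ∀ b ∈ t, r a b → f a = g b) : s.map f = t.map g := by
  rw [← Multiset.rel_eq, Multiset.rel_map]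
  exact h.mono hr

/-- SLEQ. -/
theorem sleq (ht : TraceStatement) : SleqStatement := by
  intro G K _ _ L hG
  refine ⟨?_, ?_, ?_, ?_⟩
  · intro β γ h
    unfold Lam.IS
    have h1 : (β.arcs : Multiset (Cusp × Cusp)).map (fun p => L.lam p.1 p.2) =
        (γ.arcs : Multiset (Cusp × Cusp)).map (fun p => L.lam p.1 p.2) :=
      rel_map_eq _ _ h.1 (fun a _ b _ hab => slideArc_none hab)
    have h2 : (β.loops : Multiset (SLZ × ℕ)).map (fun l => tk (L.tr l.1) l.2) =
        (γ.loops : Multiset (SLZ × ℕ)).map (fun l => tk (L.tr l.1) l.2) := by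
      refine rel_map_eq _ _ h.2 (fun l hl m hm hlm => ?_)
      obtain ⟨h0, g, hg, hh⟩ := hlm
      have hl' := (β.loop l (by simpa using hl)).1
      have hm' := (γ.loop m (by simpa using hm)).1
      have e1 := ht G K L hG l.1 hl'.mem hl'.hyp
      have e2 := ht G K L hG m.1 hm'.mem hm'.hyp
      have e3 : L.tr (g * l.1 * g⁻¹) = L.tr l.1 := e1.2.2.2.1 g hg
      have e4 : L.tr (-m.1) = L.tr m.1 := e2.2.2.2.2.1
      have e5 : L.tr m.1⁻¹ = L.tr m.1 := e2.2.2.2.2.2.1
      have hmi : m.1⁻¹ ∈ G := G.inv_mem hm'.mem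
      have htri : 2 < |(m.1⁻¹).1.trace| := by
        have : (m.1⁻¹).1.trace = m.1.1.trace := by
          rw [Matrix.SpecialLinearGroup.coe_inv, Matrix.adjugate_fin_two, Matrix.trace_fin_two,
            Matrix.trace_fin_two]
          simp [add_comm]
        rw [this]; exact hm'.hyp
      have e6 : L.tr (-m.1⁻¹) = L.tr m.1⁻¹ := (ht G K L hG m.1⁻¹ hmi htri).2.2.2.2.1
      have : L.tr l.1 = L.tr m.1 := by
        rcases hh with hh | hh | hh | hh
        · rw [← e3, hh]
        · rw [← e3, hh, e4]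
        · rw [← e3, hh, e5]
        · rw [← e3, hh, e6, e5]
      change tk (L.tr l.1) l.2 = tk (L.tr m.1) m.2
      rw [this, h0]
    have h1' := congrArg Multiset.prod h1
    have h2' := congrArg Multiset.prod h2
    simp only [Multiset.map_coe, Multiset.prod_coe] at h1' h2'
    rw [h1', h2']
  · intro e β
    exact ⟨Multiset.rel_refl_of_refl_on (fun p _ => slideArc_refl e p),
      Multiset.rel_refl_of_refl_on (fun l _ => sameLoop_refl l)⟩
  · intro e β γ h
    refine ⟨?_, ?_⟩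
    · have := Multiset.rel_flip.2 h.1
      exact this.mono (fun a _ b _ hab => slideArc_symm hab)
    · have := Multiset.rel_flip.2 h.2
      exact this.mono (fun a _ b _ hab => sameLoop_symm hab)
  · intro e β γ δ h h'
    have : IsTrans (Cusp × Cusp) (SlideArc G e) := ⟨fun _ _ _ => slideArc_trans⟩
    have : IsTrans (SLZ × ℕ) (SameLoop G) := ⟨fun _ _ _ => sameLoop_trans⟩
    exact ⟨Multiset.Rel.trans _ h.1 h'.1, Multiset.Rel.trans _ h.2 h'.2⟩

end Pool.Agent.Lib.MP_eee7a8_ag.TB.C38
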