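import Pool.Agent.Lib.MP_eee7a8_ag.TB.C38.Tagf

/-!
# TAGBR, module TAGCH (helper38): the changed decoration is a generic local system
-/

open Matrix

namespace Pool.Agent.Lib.MP_eee7a8_ag.TB.C38

variable {G : Subgroup SLZ} {K : Type} [Field K] [Algebra ℂ K]

/-- The lambda lengths of the changed decoration. -/
noncomputable def lam' (L : Lam G K) (ε : Cusp → Bool) (a b : Cusp) : K :=
  fac L ε a * fac L ε b * L.lam a b

/-- The subfield generated by the changed Farey lambda lengths. -/
noncomputable def FF (L : Lam G K) (ε : Cusp → Bool) : IntermediateField ℂ K :=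
  IntermediateField.adjoin ℂ {z : K | ∃ a b, |dt a b| = 1 ∧ z = lam' L ε a b}

theorem lam'_ptolemy (L : Lam G K) (ε : Cusp → Bool) {a b c d : Cusp} (h : Cross a b c d) :
    lam' L ε a b * lam' L ε c d = lam' L ε a c * lam' L ε b d + lam' L ε a d * lam' L ε b c := by
  have := L.ptolemy a b c d h
  unfold lam'
  linear_combination (fac L ε a * fac L ε b * fac L ε c * fac L ε d) * this

theorem lam'_ne (hv : VinvStatement) (hn : NonzeroStatement) (L : Lam G K) (hG : IsSurface G)
    (ε : Cusp → Bool) {a b : Cusp} (hab : a ≠ b) : lam' L ε a b ≠ 0 :=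
  mul_ne_zero (mul_ne_zero (fac_ne hv L hG ε a) (fac_ne hv L hG ε b)) (hn G K L hG a b hab)

theorem lam'_symm (L : Lam G K) (ε : Cusp → Bool) (a b : Cusp) :
    lam' L ε a b = lam' L ε b a := by
  unfold lam'
  rw [L.symm a b]; ring

theorem lam'_mem (hv : VinvStatement) (hn : NonzeroStatement) (hF : FareyStatement)
    (L : Lam G K) (hG : IsSurface G) (ε : Cusp → Bool) :
    ∀ (n : ℕ) (a b : Cusp), |dt a b| ≤ n → lam' L ε a b ∈ FF L ε := by
  obtain ⟨m, T, hT, hTE⟩ := hF G hG
  intro n
  induction n with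
  | zero =>
    intro a b h
    have h0 : dt a b = 0 := by
      have := abs_nonneg (dt a b)
      push_cast at h
      exact abs_eq_zero.1 (le_antisymm h this)
    have : a = b := dt_eq_zero.1 h0
    subst this
    unfold lam'
    rw [L.self]
    simp only [mul_zero]
    exact (FF L ε).zero_mem
  | succ n ih =>
    intro a b h
    by_cases hab : a = b
    · subst hab
      unfold lam'
      rw [L.self]
      simp only [mul_zero]
      exact (FF L ε).zero_mem
    have base : ∀ x y : Cusp, |dt x y| = 1 → lam' L ε x y ∈ FF L ε := by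
      intro x y hxy
      exact IntermediateField.subset_adjoin _ _ ⟨x, y, hxy, rfl⟩
    rcases hT.star a b hab with h1 | ⟨c, d, hac, had, hcd, hx⟩
    · exact base a b ((hTE a b).1 h1)
    · rw [hTE] at hac had hcd
      have hp := hx.ptolemy
      rw [hcd, hac, had] at hp
      have hne := hx.ne
      have h2 := one_le_abs_dt hne.2.2.2.2.1
      have h3 := one_le_abs_dt hne.2.2.2.1
      push_cast at h
      have hbd : lam' L ε b d ∈ FF L ε := ih b d (by linarith)
      have hbc : lam' L ε b c ∈ FF L ε := ih b c (by linarith)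
      have hpt := lam'_ptolemy L ε hx
      have hcdne : lam' L ε c d ≠ 0 := lam'_ne hv hn L hG ε hne.2.2.2.2.2
      have : lam' L ε a b = (lam' L ε a c * lam' L ε b d + lam' L ε a d * lam' L ε b c) /
          lam' L ε c d := by
        rw [← hpt]; field_simp
      rw [this]
      exact (FF L ε).div_mem ((FF L ε).add_mem ((FF L ε).mul_mem (base a c hac) hbd)
        ((FF L ε).mul_mem (base a d had) hbc)) (base c d hcd)

theorem fac_mem (hv : VinvStatement) (hs : StabStatement) (hn : NonzeroStatement)
    (hF : FareyStatement) (L : Lam G K) (hG : IsSurface G) {ε : Cusp → Bool}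
    (hε : TagInv G ε) (a : Cusp) : fac L ε a ∈ FF L ε := by
  obtain ⟨g, hg, hgo⟩ := par_smul_mem hs hG a (other a)
  have hall : ∀ x y : Cusp, lam' L ε x y ∈ FF L ε := by
    intro x y
    exact lam'_mem hv hn hF L hG ε (dt x y).natAbs x y (by simp)
  by_cases hεa : ε a
  · -- `v a` is a quotient of lambda lengths
    have hfa : fac L ε a = L.v a := by unfold fac; rw [if_pos hεa]
    have hvne := (hv G K L hG).2 a
    have hv' : L.v a = L.lam (other a) (g • other a) / (L.lam a (other a)) ^ 2 := by
      unfold Lam.v; rw [hgo]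
    have hne : a ≠ other a := by
      intro h
      rw [hv', ← h, L.self a] at hvne
      simp at hvne
    have hl := hn G K L hG a (other a) hne
    have h1 := fac_ne hv L hG ε (other a)
    have key : fac L ε a = (lam' L ε a (other a)) ^ 2 / lam' L ε (other a) (g • other a) := by
      have hlne : L.lam (other a) (g • other a) ≠ 0 := by
        intro h0
        rw [hv', h0] at hvne
        simp at hvne
      unfold lam'
      rw [fac_smul hv L hG hε hg, hfa, hv']
      field_simp
    rw [key]
    exact (FF L ε).div_mem (pow_mem (hall _ _) 2) (hall _ _)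
  · have hfa : fac L ε a = 1 := by unfold fac; rw [if_neg hεa]
    rw [hfa]
    exact (FF L ε).one_mem

theorem ff_top (hv : VinvStatement) (hs : StabStatement) (hn : NonzeroStatement)
    (hF : FareyStatement) (L : Lam G K) (hG : IsSurface G) {ε : Cusp → Bool}
    (hε : TagInv G ε) : FF L ε = ⊤ := by
  rw [eq_top_iff, ← L.gen, IntermediateField.adjoin_le_iff]
  rintro z ⟨a, b, hab, rfl⟩
  have h1 := fac_mem hv hs hn hF L hG hε a
  have h2 := fac_mem hv hs hn hF L hG hε b
  have h3 : lam' L ε a b ∈ FF L ε := IntermediateField.subset_adjoin _ _ ⟨a, b, hab, rfl⟩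
  have h4 := fac_ne hv L hG ε a
  have h5 := fac_ne hv L hG ε b
  have : L.lam a b = lam' L ε a b / (fac L ε a * fac L ε b) := by
    unfold lam'; field_simp
  rw [this]
  exact (FF L ε).div_mem h3 ((FF L ε).mul_mem h1 h2)

/-- Generators of the right number are algebraically independent. -/
theorem algind_of_gen {n : ℕ} (x y : Fin n → K) (hx : AlgebraicIndependent ℂ x)
    (hy : IntermediateField.adjoin ℂ (Set.range y) = ⊤) : AlgebraicIndependent ℂ y := by
  have halg : Algebra.IsAlgebraic (Algebra.adjoin ℂ (Set.range y)) K := by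
    rw [← IntermediateField.isAlgebraic_adjoin_iff_top, hy]
    infer_instance
  exact (Algebra.IsAlgebraic.isTranscendenceBasis_of_le_trdeg_of_finite ℂ y
    hx.cardinalMk_le_trdeg).1

/-- TAGCH. -/
theorem tagch (hv : VinvStatement) (hs : StabStatement) (hn : NonzeroStatement)
    (hF : FareyStatement) : TagchStatement := by
  intro G K _ _ L hG ε hε
  obtain ⟨n, T, hT, hTE⟩ := hF G hG
  have hinv : ∀ g ∈ G, ∀ a b, lam' L ε (g • a) (g • b) = lam' L ε a b := by
    intro g hg a b
    unfold lam'
    rw [fac_smul hv L hG hε hg, fac_smul hv L hG hε hg, L.inv g hg]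
  have hsame : ∀ a b c d : Cusp, SameArc G a b c d → lam' L ε c d = lam' L ε a b := by
    rintro a b c d ⟨g, hg, ⟨h1, h2⟩ | ⟨h1, h2⟩⟩
    · rw [← h1, ← h2, hinv g hg]
    · rw [← h1, ← h2, lam'_symm, hinv g hg]
  have hfar : ∀ i, |dt (T.s i) (T.t i)| = 1 := by
    intro i
    rw [← hTE]
    exact ⟨i, 1, G.one_mem, Or.inl ⟨one_smul _ _, one_smul _ _⟩⟩
  have hx : AlgebraicIndependent ℂ (fun i => L.lam (T.s i) (T.t i)) := by
    apply L.free n T.s T.t hfar
    intro i j hij g hg
    refine ⟨fun hh => hij (hT.inj i j ⟨g, hg, Or.inl hh⟩),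
      fun hh => hij (hT.inj i j ⟨g, hg, Or.inr hh⟩)⟩
  have hy : AlgebraicIndependent ℂ (fun i => lam' L ε (T.s i) (T.t i)) := by
    apply algind_of_gen _ _ hx
    rw [eq_top_iff, ← ff_top hv hs hn hF L hG hε]
    unfold FF
    rw [IntermediateField.adjoin_le_iff]
    rintro z ⟨a, b, hab, rfl⟩
    obtain ⟨i, hi⟩ := (hTE a b).2 hab
    rw [hsame _ _ _ _ hi]
    exact IntermediateField.subset_adjoin _ _ ⟨i, rfl⟩
  refine ⟨⟨lam' L ε, lam'_symm L ε, ?_, hinv, fun a b c d h => lam'_ptolemy L ε h, ?_,
    ff_top hv hs hn hF L hG hε⟩, fun a b => rfl⟩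
  · intro a
    unfold lam'
    rw [L.self, mul_zero]
  · intro m e f hef hdis
    have hi : ∀ i, ∃ j, SameArc G (T.s j) (T.t j) (e i) (f i) := fun i => (hTE _ _).2 (hef i)
    choose φ hφ using hi
    have hinj : Function.Injective φ := by
      intro i j hij
      by_contra hne
      have h1 := hφ i
      have h2 := hφ j
      rw [← hij] at h2
      obtain ⟨g, hg, h1⟩ := h1
      obtain ⟨k, hk, h2⟩ := h2
      have hd := hdis i j hne (k * g⁻¹) (G.mul_mem hk (G.inv_mem hg))
      rcases h1 with ⟨h1, h1'⟩ | ⟨h1, h1'⟩ <;> rcases h2 with ⟨h2, h2'⟩ | ⟨h2, h2'⟩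
      · apply hd.1
        rw [← h1, ← h1', mul_smul, mul_smul, inv_smul_smul, inv_smul_smul]
        exact ⟨h2, h2'⟩
      · apply hd.2
        rw [← h1, ← h1', mul_smul, mul_smul, inv_smul_smul, inv_smul_smul]
        exact ⟨h2, h2'⟩
      · apply hd.2
        rw [← h1, ← h1', mul_smul, mul_smul, inv_smul_smul, inv_smul_smul]
        exact ⟨h2', h2⟩
      · apply hd.1
        rw [← h1, ← h1', mul_smul, mul_smul, inv_smul_smul, inv_smul_smul]
        exact ⟨h2', h2⟩
    have := hy.comp φ hinj
    convert this using 1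
    funext i
    exact hsame _ _ _ _ (hφ i)

end Pool.Agent.Lib.MP_eee7a8_ag.TB.C38
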