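import Pool.Agent.Lib.MP_eee7a8_ag.TB.Iface4

/-!
# TAGBR, module TAGF (helper38): functions under the change of decoration
-/

open Matrix

namespace Pool.Agent.Lib.MP_eee7a8_ag.TB.C38

variable {G : Subgroup SLZ} {K : Type} [Field K] [Algebra ℂ K]

/-- The factor of the change of decoration. -/
noncomputable def fac (L : Lam G K) (ε : Cusp → Bool) (a : Cusp) : K := if ε a then L.v a else 1

theorem fac_smul (hv : VinvStatement) (L : Lam G K) (hG : IsSurface G) {ε : Cusp → Bool}
    (hε : TagInv G ε) {g : SLZ} (hg : g ∈ G) (a : Cusp) : fac L ε (g • a) = fac L ε a := by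
  unfold fac
  rw [hε g hg a, (hv G K L hG).1 g hg a]

theorem fac_ne (hv : VinvStatement) (L : Lam G K) (hG : IsSurface G) (ε : Cusp → Bool)
    (a : Cusp) : fac L ε a ≠ 0 := by
  unfold fac
  split_ifs
  · exact (hv G K L hG).2 a
  · exact one_ne_zero

theorem tw_lam {L L' : Lam G K} {ε : Cusp → Bool} (h : IsTw L L' ε) (a b : Cusp) :
    L'.lam a b = fac L ε a * fac L ε b * L.lam a b := h a b

/-- The parabolic element at `a` or its negative is in `G`. -/
theorem par_smul_mem (hs : StabStatement) (hG : IsSurface G) (a b : Cusp) :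
    ∃ g ∈ G, g • b = par a (width G a) • b := by
  rcases (hs G hG a).2.1 with h | h
  · exact ⟨_, h, rfl⟩
  · exact ⟨_, h, neg_smul' _ _⟩

theorem tw_v (hv : VinvStatement) (hs : StabStatement) {L L' : Lam G K}
    (hG : IsSurface G) {ε : Cusp → Bool} (hε : TagInv G ε) (h : IsTw L L' ε) (a : Cusp) :
    L'.v a = if ε a then (L.v a)⁻¹ else L.v a := by
  have key : L'.v a = L.v a * ((fac L ε a)⁻¹) ^ 2 := by
    obtain ⟨g, hg, hgo⟩ := par_smul_mem hs hG a (other a)
    unfold Lam.v
    rw [tw_lam h, tw_lam h, ← hgo, fac_smul hv L hG hε hg]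
    have h1 := fac_ne hv L hG ε (other a)
    have h2 := fac_ne hv L hG ε a
    by_cases h3 : L.lam a (other a) = 0
    · rw [h3]; simp
    · field_simp
  rw [key]
  have hne := (hv G K L hG).2 a
  unfold fac
  split_ifs
  · field_simp
  · simp

theorem tw_fac (hv : VinvStatement) (hs : StabStatement) {L L' : Lam G K}
    (hG : IsSurface G) {ε : Cusp → Bool} (hε : TagInv G ε) (h : IsTw L L' ε) (a : Cusp) :
    fac L' ε a = (fac L ε a)⁻¹ := by
  unfold fac
  rw [tw_v hv hs hG hε h a]
  split_ifs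
  · rfl
  · simp

/-! ## Homogeneous products -/

theorem hm_mul {L : Lam G K} {δ δ' : Cusp → ℤ} {x y : K} (hx : L.HM δ x) (hy : L.HM δ' y) :
    L.HM (δ + δ') (x * y) := by
  induction hy with
  | one => simpa using hx
  | mul δ₁ y₁ a b hab _ ih =>
    have := Lam.HM.mul _ _ a b hab ih
    rw [← add_assoc, ← mul_assoc]
    exact this
  | inv δ₁ y₁ a b hab _ ih =>
    have := Lam.HM.inv _ _ a b hab ih
    rw [← add_sub_assoc, ← mul_assoc]
    exact this

theorem hm_inv {L : Lam G K} {δ : Cusp → ℤ} {x : K} (hx : L.HM δ x) : L.HM (-δ) x⁻¹ := by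
  induction hx with
  | one => simpa using Lam.HM.one (L := L)
  | mul δ₁ y₁ a b hab _ ih =>
    have := Lam.HM.inv _ _ a b hab ih
    rw [neg_add, mul_inv, ← sub_eq_add_neg]
    exact this
  | inv δ₁ y₁ a b hab _ ih =>
    have := Lam.HM.mul _ _ a b hab ih
    rw [neg_sub, mul_inv, inv_inv, sub_eq_neg_add]
    exact this

theorem hm_lam (L : Lam G K) {a b : Cusp} (hab : a ≠ b) : L.HM (ends G a b) (L.lam a b) := by
  have := Lam.HM.mul (L := L) 0 1 a b hab Lam.HM.one
  simpa using this

open Classical in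
/-- `1` at the cusps equivalent to `a`. -/
noncomputable def at1 (G : Subgroup SLZ) (a : Cusp) : Cusp → ℤ :=
  fun z => if ∃ g ∈ G, g • z = a then 1 else 0

theorem ends_eq (G : Subgroup SLZ) (a b : Cusp) : ends G a b = at1 G a + at1 G b := rfl

open Classical in
theorem at1_smul {g : SLZ} (hg : g ∈ G) (a : Cusp) : at1 G (g • a) = at1 G a := by
  funext z
  unfold at1
  have : (∃ k ∈ G, k • z = g • a) ↔ (∃ k ∈ G, k • z = a) := by
    constructor
    · rintro ⟨k, hk, h⟩
      exact ⟨g⁻¹ * k, G.mul_mem (G.inv_mem hg) hk, by rw [mul_smul, h, inv_smul_smul]⟩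
    · rintro ⟨k, hk, h⟩
      exact ⟨g * k, G.mul_mem hg hk, by rw [mul_smul, h]⟩
  exact if_congr this rfl rfl

theorem hm_v (hv : VinvStatement) (hs : StabStatement) (L : Lam G K) (hG : IsSurface G)
    (a : Cusp) : L.HM (-(2 • at1 G a)) (L.v a) := by
  obtain ⟨g, hg, hgo⟩ := par_smul_mem hs hG a (other a)
  have hne := (hv G K L hG).2 a
  have hv' : L.v a = L.lam (other a) (g • other a) / (L.lam a (other a)) ^ 2 := by
    unfold Lam.v; rw [hgo]
  have h1 : other a ≠ g • other a := by
    intro h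
    rw [hv', ← h, L.self] at hne
    simp at hne
  have h2 : a ≠ other a := by
    intro h
    rw [hv', ← h, L.self a] at hne
    simp at hne
  have h3 := hm_lam L h1
  have h4 := hm_inv (hm_lam L h2)
  have h5 := hm_mul h3 (hm_mul h4 h4)
  rw [hv', div_eq_mul_inv, pow_two, mul_inv]
  convert h5 using 1
  rw [ends_eq, ends_eq, at1_smul hg]
  funext z
  simp
  ring

/-- The degree for the changed decoration. -/
def twd (ε : Cusp → Bool) (δ : Cusp → ℤ) : Cusp → ℤ := fun z => if ε z then -δ z else δ z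

theorem twd_at1 {ε : Cusp → Bool} (hε : TagInv G ε) (a : Cusp) :
    twd ε (at1 G a) = if ε a then -at1 G a else at1 G a := by
  funext z
  unfold twd at1
  by_cases h : ∃ g ∈ G, g • z = a
  · obtain ⟨g, hg, hz⟩ := h
    have : ε z = ε a := by rw [← hz, hε g hg]
    rw [this]
    split_ifs <;> simp_all
  · simp only [h, if_false]
    split_ifs <;> simp_all

theorem twd_add (ε : Cusp → Bool) (δ δ' : Cusp → ℤ) : twd ε (δ + δ') = twd ε δ + twd ε δ' := by
  funext z
  unfold twd
  simp only [Pi.add_apply]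
  split_ifs <;> ring

theorem twd_sub (ε : Cusp → Bool) (δ δ' : Cusp → ℤ) : twd ε (δ - δ') = twd ε δ - twd ε δ' := by
  funext z
  unfold twd
  simp only [Pi.sub_apply]
  split_ifs <;> ring

theorem hm_fac_inv (hv : VinvStatement) (hs : StabStatement) (L : Lam G K) (hG : IsSurface G)
    {ε : Cusp → Bool} (hε : TagInv G ε) (a : Cusp) :
    L.HM (twd ε (at1 G a) - at1 G a) (fac L ε a) := by
  rw [twd_at1 hε]
  unfold fac
  split_ifs
  · have := hm_v hv hs L hG a
    convert this using 1
    rw [two_smul]; abel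
  · rw [sub_self]
    exact Lam.HM.one

theorem hm_tw (hv : VinvStatement) (hs : StabStatement) {L L' : Lam G K}
    (hG : IsSurface G) {ε : Cusp → Bool} (hε : TagInv G ε) (h : IsTw L' L ε) {a b : Cusp}
    (hab : a ≠ b) : L'.HM (twd ε (ends G a b)) (L.lam a b) := by
  rw [tw_lam h]
  have h1 := hm_mul (hm_mul (hm_fac_inv hv hs L' hG hε a) (hm_fac_inv hv hs L' hG hε b))
    (hm_lam L' hab)
  convert h1 using 1
  rw [ends_eq, twd_add]
  abel

theorem hom_tw (hv : VinvStatement) (hs : StabStatement) {L L' : Lam G K}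
    (hG : IsSurface G) {ε : Cusp → Bool} (hε : TagInv G ε) (h : IsTw L' L ε) {δ : Cusp → ℤ}
    {x : K} (hx : L.HM δ x) : L'.HM (twd ε δ) x := by
  induction hx with
  | one =>
    have : twd ε 0 = 0 := by funext z; unfold twd; simp
    rw [this]; exact Lam.HM.one
  | mul δ₁ y₁ a b hab _ ih =>
    rw [twd_add]
    exact hm_mul ih (hm_tw hv hs hG hε h hab)
  | inv δ₁ y₁ a b hab _ ih =>
    rw [twd_sub, sub_eq_add_neg]
    exact hm_mul ih (hm_inv (hm_tw hv hs hG hε h hab))

/-- TAGF. -/
theorem tagf (hv : VinvStatement) (hs : StabStatement) : TagfStatement := by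
  intro G K _ _ L L' hG ε hε h
  have hback : IsTw L' L ε := by
    intro a b
    have h1 : (if ε a then L'.v a else 1) = fac L' ε a := rfl
    have h2 : (if ε b then L'.v b else 1) = fac L' ε b := rfl
    rw [h1, h2, tw_fac hv hs hG hε h, tw_fac hv hs hG hε h, tw_lam h]
    have h3 := fac_ne hv L hG ε a
    have h4 := fac_ne hv L hG ε b
    field_simp
  refine ⟨hback, fun a => tw_v hv hs hG hε h a, ?_, ?_, ?_⟩
  · intro g hg _
    unfold Lam.tr
    rw [tw_lam h, tw_lam h, mul_smul, fac_smul hv L hG hε hg, fac_smul hv L hG hε hg]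
    have h1 := fac_ne hv L hG ε infty
    rw [mul_div_mul_left _ _ (mul_ne_zero h1 h1)]
  · intro τ
    unfold Lam.arc
    rw [tw_v hv hs hG hε h, tw_v hv hs hG hε h, h]
    have h1 := (hv G K L hG).2 τ.a
    have h2 := (hv G K L hG).2 τ.b
    unfold tw
    rcases τ with ⟨a, b, s, t⟩
    simp only at h1 h2 ⊢
    cases s <;> cases t <;> cases ε a <;> cases ε b <;> simp <;> field_simp
  · intro δ x hx
    have : (fun z => if ε z then -δ z else δ z) = twd ε δ := rfl
    rw [this]
    unfold Lam.Hom at hx ⊢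
    have hle : {x | L.HM δ x} ⊆ {x | L'.HM (twd ε δ) x} := by
      intro y hy
      exact hom_tw hv hs hG hε hback hy
    exact Submodule.span_mono hle hx

end Pool.Agent.Lib.MP_eee7a8_ag.TB.C38
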