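import Pool.Agent.Lib.MP_eee7a8_ag.TB.Iface4

/-!
# TAGBR, module TAGU (helper38): tagged triangulations and bracelets under the change of tags
-/

open Matrix

namespace Pool.Agent.Lib.MP_eee7a8_ag.TB.C38

variable {G : Subgroup SLZ} {K : Type} [Field K] [Algebra ℂ K]

theorem tw_tw (ε : Cusp → Bool) (τ : TArc) : tw ε (tw ε τ) = τ := by
  unfold tw
  rcases τ with ⟨a, b, s, t⟩
  simp

theorem tw_isTArc {ε : Cusp → Bool} (hε : TagInv G ε) {τ : TArc} (h : IsTArc G τ) :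
    IsTArc G (tw ε τ) where
  ne := h.ne
  simple := h.simple
  monogon := h.monogon
  tag := by
    intro g hg hgt
    have h1 := h.tag g hg hgt
    have h2 : ε τ.a = ε τ.b := by
      have : g • τ.a = τ.b := hgt
      rw [← this, hε g hg]
    change xor τ.s (ε τ.a) = xor τ.t (ε τ.b)
    rw [h1, h2]

theorem tw_compat {ε : Cusp → Bool} (hε : TagInv G ε) {τ υ : TArc} (h : Compat G τ υ) :
    Compat G (tw ε τ) (tw ε υ) := by
  have key : ∀ g ∈ G, ∀ a b : Cusp, g • a = b → ε a = ε b := by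
    intro g hg a b hab
    rw [← hab, hε g hg]
  refine ⟨h.1, ?_⟩
  rcases h.2 with ⟨⟨g, hg, h1, h2⟩, h3⟩ | ⟨⟨g, hg, h1, h2⟩, h3⟩ | ⟨h1, h2, h3, h4⟩
  · left
    refine ⟨⟨g, hg, h1, h2⟩, ?_⟩
    have e1 := key g hg _ _ h1
    have e2 := key g hg _ _ h2
    change xor τ.s (ε τ.a) = xor υ.s (ε υ.a) ∨ xor τ.t (ε τ.b) = xor υ.t (ε υ.b)
    rw [e1, e2]
    rcases h3 with h3 | h3
    · left; rw [h3]
    · right; rw [h3]
  · right; left
    refine ⟨⟨g, hg, h1, h2⟩, ?_⟩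
    have e1 := key g hg _ _ h1
    have e2 := key g hg _ _ h2
    change xor τ.s (ε τ.a) = xor υ.t (ε υ.b) ∨ xor τ.t (ε τ.b) = xor υ.s (ε υ.a)
    rw [e1, e2]
    rcases h3 with h3 | h3
    · left; rw [h3]
    · right; rw [h3]
  · right; right
    refine ⟨fun g hg hh => ?_, fun g hg hh => ?_, fun g hg hh => ?_, fun g hg hh => ?_⟩
    · change xor τ.s (ε τ.a) = xor υ.s (ε υ.a)
      rw [h1 g hg hh, key g hg τ.a υ.a hh]
    · change xor τ.s (ε τ.a) = xor υ.t (ε υ.b)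
      rw [h2 g hg hh, key g hg τ.a υ.b hh]
    · change xor τ.t (ε τ.b) = xor υ.s (ε υ.a)
      rw [h3 g hg hh, key g hg τ.b υ.a hh]
    · change xor τ.t (ε τ.b) = xor υ.t (ε υ.b)
      rw [h4 g hg hh, key g hg τ.b υ.b hh]

theorem tw_tri {ε : Cusp → Bool} (hε : TagInv G ε) {T : Set TArc} (h : IsTTri G T) :
    IsTTri G (tw ε '' T) where
  arc := by
    rintro _ ⟨τ, hτ, rfl⟩
    exact tw_isTArc hε (h.arc τ hτ)
  compat := by
    rintro _ ⟨τ, hτ, rfl⟩ _ ⟨υ, hυ, rfl⟩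
    exact tw_compat hε (h.compat τ hτ υ hυ)
  maximal := by
    intro τ hτ hc
    refine ⟨tw ε τ, h.maximal _ (tw_isTArc hε hτ) ?_, tw_tw ε τ⟩
    intro υ hυ
    have := tw_compat hε (hc (tw ε υ) ⟨υ, hυ, rfl⟩)
    rwa [tw_tw] at this

theorem tw_image_image (ε : Cusp → Bool) (T : Set TArc) : tw ε '' (tw ε '' T) = T := by
  ext τ
  constructor
  · rintro ⟨_, ⟨υ, hυ, rfl⟩, rfl⟩
    rwa [tw_tw]
  · intro h
    exact ⟨tw ε τ, ⟨τ, h, rfl⟩, tw_tw ε τ⟩

theorem tw_monomials {L L' : Lam G K} {ε : Cusp → Bool}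
    (ha : ∀ τ : TArc, L'.arc τ = L.arc (tw ε τ)) (T : Set TArc) :
    L'.monomials T = L.monomials (tw ε '' T) := by
  unfold Lam.monomials
  congr 2
  ext z
  constructor
  · rintro ⟨τ, hτ, hz⟩
    refine ⟨tw ε τ, ⟨τ, hτ, rfl⟩, ?_⟩
    rwa [ha] at hz
  · rintro ⟨_, ⟨τ, hτ, rfl⟩, hz⟩
    refine ⟨τ, hτ, ?_⟩
    rwa [ha]

/-- TAGU. -/
theorem tagu (hf : TagfStatement) : TaguStatement := by
  intro G K _ _ L L' hG ε hε h
  obtain ⟨_, _, htr, ha, _⟩ := hf G K L L' hG ε hε h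
  have hm : ∀ T : Set TArc, L'.monomials (tw ε '' T) = L.monomials T := by
    intro T
    rw [tw_monomials ha, tw_image_image]
  refine ⟨fun T hT => ⟨tw_tri hε hT, tw_monomials ha T⟩, ?_, ?_, ?_⟩
  · apply Set.Subset.antisymm
    · intro z hz T hT
      have := hz (tw ε '' T) (tw_tri hε hT)
      rwa [hm] at this
    · intro z hz T hT
      have := hz (tw ε '' T) (tw_tri hε hT)
      rwa [← tw_monomials ha] at this
  · apply Set.Subset.antisymm
    · intro z hz T hT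
      have := hz (tw ε '' T) (tw_tri hε hT)
      rwa [hm] at this
    · intro z hz T hT
      have := hz (tw ε '' T) (tw_tri hε hT)
      rwa [← tw_monomials ha] at this
  · intro β
    refine ⟨⟨β.arcs.map (tw ε), β.loops, ?_, ?_, β.loop, ?_, β.pair⟩, ?_⟩
    · intro τ hτ
      obtain ⟨υ, hυ, rfl⟩ := Multiset.mem_map.1 hτ
      exact tw_isTArc hε (β.arc υ hυ)
    · intro τ hτ υ hυ
      obtain ⟨τ', hτ', rfl⟩ := Multiset.mem_map.1 hτ
      obtain ⟨υ', hυ', rfl⟩ := Multiset.mem_map.1 hυ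
      exact tw_compat hε (β.compat τ' hτ' υ' hυ')
    · intro l hl τ hτ
      obtain ⟨υ, hυ, rfl⟩ := Multiset.mem_map.1 hτ
      exact β.disj l hl υ hυ
    · unfold Lam.I
      simp only [Multiset.map_map]
      congr 1
      · congr 1
        apply Multiset.map_congr rfl
        intro τ _
        exact ha τ
      · congr 1
        apply List.map_congr_left
        intro l hl
        have hloop := (β.loop l hl).1
        rw [htr l.1 hloop.mem hloop.hyp]

end Pool.Agent.Lib.MP_eee7a8_ag.TB.C38
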